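import Pool.Agent.H16.TK.Stmt2

/-! EGL: the coherent sequence gives an isomorphism. -/

set_option autoImplicit false

open Set

namespace Pool.Agent.TK

theorem pf_EGL {C : Type} {c0 : C} (hEGA : EGA C c0) (hEGB : EGB C c0) (hEGC : EGC C c0) :
    EGL C c0 := by
  intro s ρ d hs hρ hd M N w w' a a' D D' hM hN hw' hD hD' hl hTP P A S q t hC hA hq ht htD hbf hR
  have h1 := hEGA s ρ hs hρ M N w w' a a' D D' hM hN hw' hD hD' hl hTP P A S q t hC hA hq ht htD
    hbf
  have h2 := hEGB s ρ d hs hd M N w w' a a' D D' hM hN hD hD' hl hTP P _ A S q t hC hA hq ht h1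
    hbf hR
  exact hEGC M N w w' a a' D D' P _ A S q t hM hN hD hD' hl hC hA hq ht h1
    (fun n => bf_PI (hbf n)) h2

end Pool.Agent.TK
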