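import Pool.Agent.H16.TK.Stmt2

/-! LDX: existence of the data for the level lemma. -/

set_option autoImplicit false

open Set

namespace Pool.Agent.TK

/-- a rank above `r` and all `f n` -/
def sup2 (r : Rk) (f : ℕ → Rk) : Rk := Rk.sup (fun n => match n with
  | 0 => r
  | n + 1 => f n)

lemma sup2_left {C : Type} (r : Rk) (f : ℕ → Rk) : RLe C r (sup2 r f) := RLe.sup _ 0

lemma sup2_right {C : Type} (r : Rk) (f : ℕ → Rk) (n : ℕ) : RLe C (f n) (sup2 r f) :=
  RLe.sup (fun n => match n with
    | 0 => r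
    | n + 1 => f n) (n + 1)

/-- the replacement depends only on the structures with an index in `y` -/
lemma repl_congr {C : Type} {c0 : C} {M : St C} {a : ℕ → List ℕ} {D : ℕ → Set ℕ}
    {R R' : ℕ → St C} {y : Set ℕ} (h : ∀ i ∈ y, R i = R' i) :
    repl c0 M a D R y = repl c0 M a D R' y := by
  unfold repl
  refine Prod.ext ?_ ?_
  · funext u v
    by_cases hh : ∃ i, i ∈ y ∧ (u ∈ D i ∨ v ∈ D i)
    · simp only [dif_pos hh]
      rw [h _ hh.choose_spec.1]
    · simp only [dif_neg hh]
  · funext l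
    by_cases hh : ∃ i, i ∈ y ∧ ∃ u ∈ l, u ∈ D i
    · simp only [dif_pos hh]
      rw [h _ hh.choose_spec.1]
    · simp only [dif_neg hh]

/-- the history of a recursion which may use all earlier values -/
def hist {α : Type} (r0 : α) (nx : ℕ → (ℕ → α) → α) : ℕ → ℕ → α
  | 0 => fun _ => r0
  | i + 1 => Function.update (hist r0 nx i) (i + 1) (nx i (hist r0 nx i))

lemma hist_eq {α : Type} (r0 : α) (nx : ℕ → (ℕ → α) → α) (i : ℕ) : ∀ j ≤ i,
    hist r0 nx i j = hist r0 nx j j := by
  induction i with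
  | zero =>
    intro j hj
    obtain rfl : j = 0 := Nat.le_zero.1 hj
    rfl
  | succ i ih =>
    intro j hj
    rcases Nat.eq_or_lt_of_le hj with rfl | hj
    · rfl
    · show Function.update (hist r0 nx i) (i + 1) _ j = _
      rw [Function.update_of_ne (Nat.ne_of_lt hj)]
      exact ih j (Nat.le_of_lt_succ hj)

theorem pf_LDX {C : Type} [MeasurableSpace C] {c0 : C} (hEXB : EXB C c0) (hSCO : SCO C) :
    LDX C c0 := by
  intro b X hX M hM w A S hC hinf
  -- the levels
  obtain ⟨k, hk, hkP⟩ := Nat.exists_strictMono_subsequence (P := fun n =>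
    ∃ D, Lev M w A n D ∧ ¬ Sm c0 b M D) (fun N => by
      obtain ⟨n, hn, h⟩ := hinf (N + 1)
      exact ⟨n, hn, h⟩)
  choose D hD hSm using hkP
  have hfin : ∀ n, (A n).Finite := by
    intro n
    induction n with
    | zero => exact hC.fin0
    | succ n ih =>
      rw [hC.succ n]
      exact ih.union (hC.next n).1
  choose a ha _ _ using fun i => exists_list (hfin (k i + 1))
  have hcp : ∀ i, IsCp M (ms (a i)) (D i) := by
    intro i
    rw [ha i]
    exact (hD i).1
  have hbig : ∀ i, ¬ small c0 b M (a i) (D i) := fun i h => hSm i ⟨a i, hcp i, h⟩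
  -- the replacements
  choose RR h1 h2 h3 h4 h5 using fun (i : ℕ) (ρ : Rk) =>
    hEXB X b hX M hM (a i) (D i) (hcp i) (hbig i) ρ
  -- the ranks
  choose sc hsc using hSCO
  have hrig : ∀ (N : St C) (a' : List ℕ) (E : Set ℕ) (ρ : Rk), RLe C (sc N a' E) ρ →
      small c0 ρ N a' E := by
    intro N a' E ρ hρ
    exact (Rig.small (fun N' b' v' _ _ hF => hsc N a' E N' b' _ hF)).rank hρ
  obtain ⟨e, he⟩ := exists_surjective_nat (List ℕ × ℕ)
  obtain ⟨e', he'⟩ := exists_surjective_nat (Finset ℕ × List ℕ × ℕ)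
  set r0 : Rk := sup2 b (fun n => sc M (e n).1 (cp M (ms (e n).1) (e n).2)) with hr0
  set G : (ℕ → Rk) → Finset ℕ → St C := fun ρ t => repl c0 M a D (fun j => RR j (ρ j)) t with hG
  set nx : ℕ → (ℕ → Rk) → Rk := fun i ρ => sup2 (ρ i) (fun n =>
    sc (G ρ (e' n).1) (e' n).2.1 (cp (G ρ (e' n).1) (ms (e' n).2.1) (e' n).2.2)) with hnx
  set r : ℕ → Rk := fun i => hist r0 nx i i with hr
  have hrs : ∀ i, r (i + 1) = nx i (hist r0 nx i) := by
    intro i
    show Function.update (hist r0 nx i) (i + 1) (nx i (hist r0 nx i)) (i + 1) = _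
    rw [Function.update_self]
  refine ⟨k, a, D, fun i => RR i (r i), r, ?_⟩
  refine
    { hyp := hX, hM := hM, cs := hC, mono := hk, msa := ha, lev := hD
      valR := fun i => h1 i (r i)
      cpR := fun i => h2 i (r i)
      pi := fun i => h3 i (r i)
      bfR := fun i => h4 i (r i)
      big := fun i => h5 i (r i)
      rle := ?_
      rb := sup2_left _ _
      r0 := ?_
      rs := ?_ }
  · intro i
    rw [hrs i]
    exact sup2_left _ _
  · intro a' v _
    obtain ⟨n, hn⟩ := he (a', v)
    refine hrig M a' _ _ ?_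
    have := sup2_right (C := C) b (fun n => sc M (e n).1 (cp M (ms (e n).1) (e n).2)) n
    rw [hn] at this
    exact this
  · intro i s hs a' v _
    have hsf : s.Finite := (Set.finite_Iic i).subset hs
    obtain ⟨n, hn⟩ := he' (hsf.toFinset, a', v)
    have hrep : repl c0 M a D (fun j => RR j (r j)) s = G (hist r0 nx i) hsf.toFinset := by
      show _ = repl c0 M a D (fun j => RR j (hist r0 nx i j)) (hsf.toFinset : Set ℕ)
      rw [Finite.coe_toFinset]
      refine repl_congr fun j hj => ?_
      rw [hist_eq r0 nx i j (hs j hj)]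
    rw [hrep, hrs i]
    refine hrig _ a' _ _ ?_
    have := sup2_right (C := C) (hist r0 nx i i) (fun n =>
      sc (G (hist r0 nx i) (e' n).1) (e' n).2.1
        (cp (G (hist r0 nx i) (e' n).1) (ms (e' n).2.1) (e' n).2.2)) n
    rw [hn] at this
    exact this

end Pool.Agent.TK
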