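import Pool.Agent.H16.TK.Stmt2

/-! RST: restart of the canonical sequence at step `k` with other marks. -/

set_option autoImplicit false

open Set

namespace Pool.Agent.TK

section
variable {C : Type} {c0 : C} {M : St C} {w : Set ℕ → Set ℕ}

/-- components inside a common side -/
lemma rst_cp (hM : Valid c0 M) {X Y B D U : Set ℕ} (hX : IsCp M X U) (hY : IsCp M Y U)
    (hD : IsCp M (X ∪ B) D) (hDU : D ⊆ U) : IsCp M (Y ∪ B) D := by
  refine hD.change hM ?_ ?_
  · intro u hu
    by_cases huU : u ∈ U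
    · rcases hD.nb hM hu with h | h
      · exact absurd h (Set.disjoint_left.1 hX.disj huU)
      · exact Or.inr h
    · rcases Nb_mono_of_disj hDU hu with h | h
      · exact Or.inl (hY.nb hM h)
      · exact absurd h huU
  · rw [Set.disjoint_left]
    rintro x hx (h | h)
    · exact Set.disjoint_left.1 hY.disj (hDU hx) h
    · exact Set.disjoint_left.1 hD.disj hx (Or.inr h)

/-- the sides of a separator behind equivalent marks are the same -/
lemma rst_w (hM : Valid c0 M) (hw : IsDir M w) {X Y B : Set ℕ} (hXf : X.Finite) (hYf : Y.Finite)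
    (hBf : B.Finite) (hXY : w X = w Y) : w (X ∪ B) = w (Y ∪ B) := by
  have hX : IsCp M X (w X) := hw.1 X hXf
  have hY : IsCp M Y (w X) := by
    rw [hXY]
    exact hw.1 Y hYf
  have h1 : w (X ∪ B) ⊆ w X := hw.2 _ _ (hXf.union hBf) subset_union_left
  have hV : IsCp M (Y ∪ B) (w (X ∪ B)) := rst_cp hM hX hY (hw.1 _ (hXf.union hBf)) h1
  have hV' : IsCp M (Y ∪ B) (w (Y ∪ B)) := hw.1 _ (hYf.union hBf)
  have hf : (X ∪ Y ∪ B).Finite := (hXf.union hYf).union hBf
  obtain ⟨z, hz⟩ := (hw.1 _ hf).nonempty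
  have hz1 : z ∈ w (X ∪ B) := hw.2 _ _ hf (union_subset_union_left B subset_union_left) hz
  have hz2 : z ∈ w (Y ∪ B) := hw.2 _ _ hf (union_subset_union_left B subset_union_right) hz
  exact hV.eq_of_inter hM hV' hz1 hz2

/-- the separators of a canonical sequence are nonempty -/
lemma rst_q (hM : Valid c0 M) {P : Set ℕ} {A S : ℕ → Set ℕ} (hC : CSeq M w P A S) :
    ∀ n, (A n).Finite ∧ P ⊆ A n ∧ (Nb M (w (A n)) \ P).Nonempty := by
  intro n
  induction n with
  | zero => exact ⟨hC.fin0, hC.P0, hC.q0⟩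
  | succ n ih =>
    obtain ⟨hf, hP, hq⟩ := ih
    obtain ⟨hS1, hS2, hS3, -⟩ := hC.next n
    have hAf : (A (n + 1)).Finite := by
      rw [hC.succ n]
      exact hf.union hS1
    have hPs : P ⊆ A (n + 1) := by
      rw [hC.succ n]
      exact hP.trans subset_union_left
    refine ⟨hAf, hPs, ?_⟩
    rw [← hC.succ n] at hS3
    have hsub : w (A (n + 1)) ⊆ w (A n) := hC.dir.2 _ _ hAf (by
      rw [hC.succ n]
      exact subset_union_left)
    by_cases heq : w (A (n + 1)) = w (A n)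
    · rw [heq]
      exact hq
    · have hex : ∃ y ∈ w (A n), y ∉ w (A (n + 1)) := by
        by_contra hc
        push Not at hc
        exact heq (hsub.antisymm hc)
      obtain ⟨y, hy, hy'⟩ := hex
      obtain ⟨x, hx⟩ := (hC.dir.1 _ hAf).nonempty
      have hcon : Conn M (w (A n))ᶜ x y :=
        ((hC.dir.1 _ hf).cd hM).2 x (hsub hx) y hy
      obtain ⟨z, hz, hzA, -, -⟩ := hcon.exit hM hx hy'
      have hzU : z ∈ w (A n) := by simpa using hzA
      exact ⟨z, hz, fun hzP => Set.disjoint_left.1 (hC.dir.1 _ hf).disj hzU (hP hzP)⟩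

end

/-- the new marks -/
def rstA (A' : Set ℕ) (T : ℕ → Set ℕ) : ℕ → Set ℕ
  | 0 => A'
  | n + 1 => rstA A' T n ∪ T n

theorem pf_RST {C : Type} {c0 : C} : RST C c0 := by
  intro M hM w P A S hC k A' hA' hP hwA
  have hq := rst_q hM hC
  set T : ℕ → Set ℕ := fun n => S (k + n) with hT
  have hdir := hC.dir
  have key : ∀ n, (rstA A' T n).Finite ∧ w (rstA A' T n) = w (A (k + n)) := by
    intro n
    induction n with
    | zero => exact ⟨hA', hwA⟩
    | succ n ih =>
      obtain ⟨hf, hw⟩ := ih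
      have hSf : (T n).Finite := (hC.next (k + n)).1
      refine ⟨hf.union hSf, ?_⟩
      show w (rstA A' T n ∪ S (k + n)) = w (A (k + n + 1))
      rw [hC.succ (k + n)]
      exact rst_w hM hdir hf (hq (k + n)).1 hSf hw
  refine ⟨rstA A' T, T, ⟨hdir, hA', hP, ?_, ?_, fun n => rfl⟩, rfl, fun n => (key n).2, ?_⟩
  · show (Nb M (w A') \ P).Nonempty
    rw [hwA]
    exact (hq k).2.2
  · intro n
    obtain ⟨hf, hw⟩ := key n
    obtain ⟨h1, h2, h3, h4⟩ := hC.next (k + n)
    have hX : ∀ B : Set ℕ, B.Finite → w (rstA A' T n ∪ B) = w (A (k + n) ∪ B) := fun B hB =>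
      rst_w hM hdir hf (hq (k + n)).1 hB hw
    refine ⟨h1, ?_, ?_, ?_⟩
    · rw [hw]
      exact h2
    · rw [hw, hX _ h1]
      exact h3
    · intro B hB hBw hBd
      rw [hw] at hBw hBd
      rw [hX B hB] at hBd ⊢
      rw [hX _ h1]
      exact h4 B hB hBw hBd
  · intro n D
    obtain ⟨hf, hw⟩ := key n
    have hU1 : IsCp M (rstA A' T n) (w (A (k + n))) := by
      rw [← hw]
      exact hdir.1 _ hf
    have hU2 : IsCp M (A (k + n)) (w (A (k + n))) := hdir.1 _ (hq (k + n)).1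
    unfold Lev
    rw [hw, (key (n + 1)).2]
    have e1 : rstA A' T (n + 1) = rstA A' T n ∪ S (k + n) := rfl
    have e2 : A (k + n + 1) = A (k + n) ∪ S (k + n) := hC.succ (k + n)
    rw [e1]
    show _ ↔ IsCp M (A (k + n + 1)) D ∧ D ⊆ w (A (k + n)) ∧ D ≠ w (A (k + n + 1))
    rw [e2, ← e2]
    constructor
    · rintro ⟨h1, h2, h3⟩
      exact ⟨by rw [e2]; exact rst_cp hM hU1 hU2 h1 h2, h2, h3⟩
    · rintro ⟨h1, h2, h3⟩
      refine ⟨rst_cp hM hU2 hU1 (by rw [← e2]; exact h1) h2, h2, h3⟩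

end Pool.Agent.TK
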